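import Mathlib
import Pool.Agent.Helper40.ZX.All
import Pool.Agent.Helper40.ZX.Pub
import Pool.Agent.Helper40.GA.Pub
import Pool.Agent.Helper40.GZ.Pub
import Pool.Agent.Helper40.DZ.Pub

namespace Pool.Agent.Results.MP_7a8f48_an.IsometricExtensions

open MeasureTheory
open Pool.Agent.Helper40.ZXP (Base ergodicMeasures Adm)
open Pool.Agent.Helper40.GAP (AffineZero)
open Pool.Agent.Helper40.GZP (shift IsoExt Rot FamSet)
open Pool.Agent.Helper40.DZP (Vanish)
open Pool.Agent.Helper40.Mob (TwistedDisjoint)

universe u

/-- Moebius disjointness, at every point, of all isometric extensions `T` (in the sense of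
Furstenberg) of a continuous map `S` of a compact metric space `Y` which has at most countably many
ergodic measures and is triangular for each of them: for almost all points the dynamics is an
iterated extension by subgroups of the circle, with measurable cocycles. `T` and the function `F`
may be discontinuous over a null set of points of `Y`. The same for the part of a C*-algebra which
is generated by finite families transformed by continuous cocycles over `S`. The same for the affine
maps of zero entropy of tori. Examples of `S` are the triangular maps of tori with at most countably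
many ergodic measures, in particular the uniquely ergodic ones. -/
theorem result :
    (∀ (X Y : Type) [MetricSpace X] [CompactSpace X] [MeasurableSpace X] [BorelSpace X]
      [MetricSpace Y] [CompactSpace Y] [MeasurableSpace Y] [BorelSpace Y] (S : C(Y, Y))
      (π : X → Y) (T : X → X) (ρ : X → X → ℝ) (F : X → ℂ), IsoExt π S T ρ → Adm π S T F →
      ∀ x : X, Vanish T F x) ∧
    (∀ (B : Type u) [CStarAlgebra B] (Y : Type) [MetricSpace Y] [CompactSpace Y]
      [MeasurableSpace Y] [BorelSpace Y] (S : C(Y, Y)) (α : B →⋆ₐ[ℂ] B)
      (π : C(Y, ℂ) →⋆ₐ[ℂ] B), Base S ∨ AffineZero S → Rot S α π → ∀ a : B,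
      a ∈ closure (Submodule.span ℂ (FamSet α π) : Set B) → TwistedDisjoint α a) ∧
    ∀ (N : ℕ) (f : Fin N → C(UnitAddTorus (Fin N), UnitAddCircle)),
      (∀ i x x', (∀ j, j < i → x j = x' j) → f i x = f i x') →
      (ergodicMeasures (shift fun i => f i)).Countable → Base (shift fun i => f i) :=
  ⟨fun X Y _ _ _ _ _ _ _ _ S π T ρ F hI hA x =>
      Pool.Agent.Helper40.ZX.all_one X Y S π T ρ F hI hA x,
    fun B _ Y _ _ _ _ S α π hM hr a ha =>
      Pool.Agent.Helper40.ZX.all_two B Y S α π hM hr a ha,
    fun N f hd hc => Pool.Agent.Helper40.ZX.fin_three N f hd hc⟩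

end Pool.Agent.Results.MP_7a8f48_an.IsometricExtensions
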