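import Mathlib
import Pool.Agent.Helper40.ZW.All
import Pool.Agent.Helper40.ZW.Pub
import Pool.Agent.Helper40.DZ.Pub

namespace Pool.Agent.Results.MP_7a8f48_an.LimitMeasures

open MeasureTheory
open Pool.Agent.Helper40.ZWP (Structured Mixture Limit Strong)
open Pool.Agent.Helper40.DZP (Vanish)

/-- Moebius disjointness along the orbit of a point `x` of a compact metric space all of whose limit
measures are countable mixtures of structured measures (infinite iterated extensions by subgroups of
the circle with measurable cocycles, followed by an isometric extension which need not be ergodic,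
and the invertible factors of such systems). The map and the function may be discontinuous on null
sets. For continuous maps with at most countably many ergodic measures, all of them structured,
Moebius disjointness holds in the strong form, along moving orbits. -/
theorem result :
    (∀ (X : Type) [MetricSpace X] [CompactSpace X] [MeasurableSpace X] [BorelSpace X]
      (T : X → X) (F : X → ℂ) (x : X), Measurable T → Measurable F → (∃ C : ℝ, ∀ z, ‖F z‖ ≤ C) →
      (∀ m : Measure X, Limit T x m →
        (∀ᵐ z ∂m, ContinuousAt T z ∧ ContinuousAt F z) ∧ Mixture T m) → Vanish T F x) ∧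
    ∀ (X : Type) [MetricSpace X] [CompactSpace X] [MeasurableSpace X] [BorelSpace X]
      (T : C(X, X)), {m : Measure X | IsProbabilityMeasure m ∧ Ergodic T m}.Countable →
      (∀ m : Measure X, IsProbabilityMeasure m → Ergodic T m → Structured T m) →
      ∀ F : C(X, ℂ), Strong T F :=
  ⟨fun X _ _ _ _ T F x hT hF hB h => Pool.Agent.Helper40.ZW.all_one X T F x hT hF hB h,
    fun X _ _ _ _ T hc hs F => Pool.Agent.Helper40.ZW.all_two X T hc hs F⟩

end Pool.Agent.Results.MP_7a8f48_an.LimitMeasures
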