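import Mathlib
import Pool.Agent.Helper40.Nil.LDefs
import Pool.Agent.Helper40.Nil.SBLDefs
import Pool.Agent.Helper95.Sol.PA

open Pool.Agent.Helper40.Mob Pool.Agent.Helper40.Nil

namespace Pool.Agent.Results.MP_7a8f48_an.PowerAlternative

universe u v w

/-- Li's question for conjugations.  `G` is a subgroup of an arbitrary group `Γ`, and `h ∈ Γ`
normalizes `G`, such that for every `g ∈ G` some power `h ^ q`, `q ≥ 1`, and its conjugate
`g * h ^ q * g⁻¹` are a basis of a free group or generate a group with a homomorphism with solvable
kernel to a matrix group over some commutative ring (a linear or virtually solvable group, for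
example).  `A` is the reduced C*-algebra of `G` with canonical unitaries `U g`, and `α` is the
automorphism with `α (U g) = U (h g h⁻¹)`.  If `α` has zero entropy (the contractive approximation
entropy, with lower limits; this holds if the Voiculescu-Brown entropy of `α` is zero), then all
elements of `A` are Moebius disjoint along `α`, with all twists. -/
theorem result (Γ : Type v) [Group Γ] (G : Subgroup Γ) (h : Γ)
    (hΓ : ∀ g ∈ G, ∃ q : ℕ, 1 ≤ q ∧
      (SolvableByLinear (Subgroup.closure {h ^ q, g * h ^ q * g⁻¹}) ∨
        Function.Injective (FreeGroup.lift ![h ^ q, g * h ^ q * g⁻¹])))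
    (A : Type u) [CStarAlgebra A] (U : G →* unitary A) (hU : IsReducedAlgebra U)
    (α : A →⋆ₐ[ℂ] A) (hα : IsConjugation G h U α)
    (H : Type w) [NormedAddCommGroup H] [InnerProductSpace ℂ H] [CompleteSpace H]
    (π : A →⋆ₐ[ℂ] (H →L[ℂ] H)) (hπ : Function.Injective π) (hent : ZeroLowerEntropy π α) (a : A) :
    TwistedDisjoint α a :=
  Pool.Agent.Helper95.Sol.td_pair G h U hU α hα π hπ hent (fun g hg => hΓ g hg) a

end Pool.Agent.Results.MP_7a8f48_an.PowerAlternative
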