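import Mathlib
import Pool.Agent.Helper40.MobDefs
import Pool.Agent.Helper40.MR.All
import Pool.Agent.Helper40.MR.CSTq

/-!
Moebius disjointness in norm, in almost all short intervals, for C*-dynamical systems of
subpolynomial linear width.

`A` is a unital C*-algebra, `i : A → B` a unital embedding in a C*-algebra (`B = A` or
`B = B(H)` for instance), `α` a unital *-endomorphism of `A`, and `u` an element of `A`. If for every
state `φ` of `B` whose restriction to `A` is invariant, all `ε, τ > 0` and infinitely many `n` the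
elements `u, α u, ..., α^(n-1) u` are within `ε` in mean square, for the seminorm
`φ(x* x)^(1/2)`, of a subspace of `B` of dimension at most `n^τ`, then for all `δ > 0`, all large `H`
and all large `N` (depending on `H`)
`∑_{m < N} ‖∑_{h < H} μ(m + h) z^h α^h(u)‖ ≤ δ H N` for all `|z| = 1`. In particular
`(1/N) ∑_{n ≤ N} μ(n) z^n ρ(α^n u)` tends to `0` for all states `ρ` of `A`.
-/

open Filter Topology Finset

namespace Pool.Agent.Results.MP_7a8f48_an.SubpolynomialWidth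

open Pool.Agent.Helper40.Mob

universe u v

theorem result {A : Type u} {B : Type v} [CStarAlgebra A] [CStarAlgebra B]
    (i : A →⋆ₐ[ℂ] B) (hi : Function.Injective i) (α : A →⋆ₐ[ℂ] A) (u : A)
    (hyp : ∀ φ : B →L[ℂ] ℂ, IsState φ → (∀ a, φ (i (α a)) = φ (i a)) →
      ∀ ε : ℝ, 0 < ε → ∀ τ : ℝ, 0 < τ → ∃ᶠ n : ℕ in atTop,
        ∃ F : Submodule ℂ B, FiniteDimensional ℂ F ∧ (Module.finrank ℂ F : ℝ) ≤ (n : ℝ) ^ τ ∧
          ∃ y : ℕ → B, (∀ j < n, y j ∈ F) ∧
            ∑ j ∈ range n, ‖φ (star (i (α^[j] u) - y j) * (i (α^[j] u) - y j))‖ ≤ ε * n) :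
    (∀ δ : ℝ, 0 < δ → ∀ᶠ H : ℕ in atTop, ∀ᶠ N : ℕ in atTop, ∀ z : ℂ, ‖z‖ = 1 →
      ∑ m ∈ range N, ‖∑ h ∈ range H,
        ((ArithmeticFunction.moebius (m + h) : ℂ) * z ^ h) • α^[h] u‖ ≤ δ * (H * N)) ∧
    ∀ ρ : A →L[ℂ] ℂ, IsState ρ → ∀ z : ℂ, ‖z‖ = 1 →
      Tendsto (fun N : ℕ => (1 / (N : ℂ)) *
        ∑ n ∈ Icc 1 N, (ArithmeticFunction.moebius n : ℂ) * (z ^ n * ρ (α^[n] u)))
        atTop (𝓝 0) := by
  have h := Pool.Agent.Helper40.MR.cst_momo {1}
    (Pool.Agent.Helper40.MR.cst_nt1 Pool.Agent.Helper40.MR.all_NT) i hi α u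
    (fun φ hφ hinv => ⟨1, one_pos, fun ε hε τ hτ => (hyp φ hφ hinv ε hε τ hτ).mono
      fun n hn => ⟨1, rfl, le_rfl, by simp, by simpa only [one_mul] using hn⟩⟩)
  exact ⟨h, fun ρ hρ z hz => Pool.Agent.Helper40.MR.cst_states α u h ρ hρ z hz⟩

end Pool.Agent.Results.MP_7a8f48_an.SubpolynomialWidth
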